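import Pool.Agent.Work.MP_6c2b6a_an.Main

/-!
Every nonreflexive real Banach space carries a maximally monotone operator which is not of type (BR), for the
given norm and at the same time for every equivalent norm, and not of type (D).
-/

set_option autoImplicit false

namespace Pool.Agent.Results.MP_6c2b6a_an.EveryEquivalentNorm

open Pool.Agent.Work.MP_6c2b6a_an

theorem result (X : Type*) [NormedAddCommGroup X] [NormedSpace ℝ X] [CompleteSpace X]
    (hX : ¬ Function.Surjective (NormedSpace.inclusionInDoubleDual ℝ X)) :
    ∃ A : Set (X × StrongDual ℝ X), IsMaxMonotone A ∧ ¬ TypeBR (‖·‖) (‖·‖) A ∧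
      (∀ N : Seminorm ℝ X, IsEquivNorm N → ¬ TypeBR N (dualNorm N) A) ∧ ¬ TypeD A :=
  main hX

end Pool.Agent.Results.MP_6c2b6a_an.EveryEquivalentNorm
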